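import Pool.Agent.Helper50.HY.Stmts

/-!
# Row EBH: upper bound of the energy of a hydrogen system
-/

set_option autoImplicit false

namespace Pool.Agent.Helper4.HY

open MeasureTheory Filter Pool.Agent.Helper95 Pool.Agent.Helper95.PW Pool.Agent.Helper95.LN
open Pool.Agent.Helper50.HY

theorem nr_eq (y : R3) : nr y = ‖(WithLp.toLp 2 y : EuclideanSpace ℝ (Fin 3))‖ := by
  rw [EuclideanSpace.norm_eq]
  simp [nr, Fin.sum_univ_three]

theorem nr_nonneg (y : R3) : 0 ≤ nr y := Real.sqrt_nonneg _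

theorem nr_comm (x y : R3) : nr (x - y) = nr (y - x) := by
  unfold nr
  congr 1
  simp only [Pi.sub_apply]
  ring

theorem nr_tri (y a b : R3) : nr (a - b) ≤ nr (y - a) + nr (y - b) := by
  rw [nr_comm y a, nr_eq, nr_eq, nr_eq]
  have h : (WithLp.toLp 2 (a - b) : EuclideanSpace ℝ (Fin 3)) =
      WithLp.toLp 2 (a - y) + WithLp.toLp 2 (y - b) := by
    rw [← WithLp.toLp_add, sub_add_sub_cancel]
  rw [h]
  exact norm_add_le _ _

theorem nr_sq (y : R3) : nr y ^ 2 = y 0 ^ 2 + y 1 ^ 2 + y 2 ^ 2 := by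
  unfold nr
  rw [Real.sq_sqrt (by positivity)]

theorem half_sum {n : ℕ} (S : Fin n → Fin n → ℝ) (hs : ∀ i j, S i j = S j i)
    (h0 : ∀ i, S i i = 0) :
    2 * (∑ i, ∑ j, if i < j then S i j else 0) = ∑ i, ∑ j, S i j := by
  have e : ∀ i j, S i j = (if i < j then S i j else 0) + (if j < i then S i j else 0) := by
    intro i j
    rcases lt_trichotomy i j with h | h | h
    · rw [if_pos h, if_neg (not_lt.2 h.le), add_zero]
    · subst h
      rw [if_neg (lt_irrefl i), h0, add_zero]
    · rw [if_neg (not_lt.2 h.le), if_pos h, zero_add]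
  have e2 : ∑ i, ∑ j, (if j < i then S i j else 0) = ∑ i, ∑ j, if i < j then S i j else 0 := by
    rw [Finset.sum_comm]
    refine Finset.sum_congr rfl fun i _ => Finset.sum_congr rfl fun j _ => ?_
    rw [hs j i]
  have e3 : ∑ i, ∑ j, S i j = (∑ i, ∑ j, if i < j then S i j else 0) +
      ∑ i, ∑ j, if j < i then S i j else 0 := by
    rw [← Finset.sum_add_distrib]
    refine Finset.sum_congr rfl fun i _ => ?_
    rw [← Finset.sum_add_distrib]
    exact Finset.sum_congr rfl fun j _ => e i j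
  rw [e3, e2]
  ring

theorem pd_tr (i : Fin 3) (g : R3 → ℝ) (c y : R3) :
    pd i (fun w => g (w - c)) y = pd i g (y - c) := by
  unfold pd
  rw [fderiv_comp_sub]

/-- the orbital -/
noncomputable def orbq (q : ℝ → ℝ) (a y : R3) : ℝ := q (nr (y - a) ^ 2)

section
variable {q : ℝ → ℝ} {R : ℝ}

theorem orbq_smooth (hq : ContDiff ℝ (⊤ : ℕ∞) q) (a : R3) : ContDiff ℝ (⊤ : ℕ∞) (orbq q a) := by
  unfold orbq
  refine hq.comp ?_
  have : (fun y : R3 => nr (y - a) ^ 2) =
      fun y : R3 => (y 0 - a 0) ^ 2 + (y 1 - a 1) ^ 2 + (y 2 - a 2) ^ 2 := by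
    funext y
    rw [nr_sq]
    rfl
  rw [this]
  fun_prop

theorem orbq_zero (hR : 0 < R) (h0 : ∀ t, R ^ 2 ≤ t → q t = 0) (a y : R3) (h : R ≤ nr (y - a)) :
    orbq q a y = 0 := by
  unfold orbq
  apply h0
  gcongr

theorem nr_cont (a : R3) : Continuous fun y : R3 => nr (y - a) := by
  unfold nr
  fun_prop

theorem orbq_tsup (hR : 0 < R) (h0 : ∀ t, R ^ 2 ≤ t → q t = 0) (a y : R3)
    (h : y ∈ tsupport (orbq q a)) : nr (y - a) ≤ R := by
  have hc : IsClosed {y : R3 | nr (y - a) ≤ R} := isClosed_le (nr_cont a) continuous_const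
  have hs : Function.support (orbq q a) ⊆ {y : R3 | nr (y - a) ≤ R} := by
    intro w hw
    by_contra h1
    exact hw (orbq_zero hR h0 a w (not_le.1 h1).le)
  exact closure_minimal hs hc h

theorem orbq_cs (hR : 0 < R) (h0 : ∀ t, R ^ 2 ≤ t → q t = 0) (a : R3) :
    HasCompactSupport (orbq q a) := by
  refine HasCompactSupport.of_support_subset_isCompact (K := Metric.closedBall a R)
    (isCompact_closedBall a R) ?_
  intro w hw
  rw [Metric.mem_closedBall, dist_pi_le_iff hR.le]
  intro i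
  have h1 : nr (w - a) ≤ R := by
    by_contra h1
    exact hw (orbq_zero hR h0 a w (not_le.1 h1).le)
  have h2 : |w i - a i| ≤ nr (w - a) := by
    rw [← abs_of_nonneg (nr_nonneg (w - a))]
    apply sq_le_sq.1
    rw [nr_sq]
    simp only [Pi.sub_apply]
    fin_cases i <;> simp <;> nlinarith [sq_nonneg (w 0 - a 0), sq_nonneg (w 1 - a 1),
      sq_nonneg (w 2 - a 2)]
  rw [Real.dist_eq]
  exact h2.trans h1

end

theorem EBH (h1 : ST_TRE) (h2 : ST_NWT) (h3 : ST_TRO) : ST_EBH := by
  intro δ hδ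
  obtain ⟨q, R, hR, hq, h0, hint, hen⟩ := h3 δ hδ
  refine ⟨R, hR, fun n X E hX hE => ?_⟩
  have htr : ∀ a : R3, ∫ y, orbq q a y ^ 2 = 1 := by
    intro a
    rw [← hint]
    exact integral_sub_right_eq_self (fun y : R3 => q (nr y ^ 2) ^ 2) a
  obtain ⟨ψ, hs, ha, hp, hk, hpr, hon⟩ := h1 n (fun k => orbq q (X k))
    (fun l => orbq_smooth hq _) (fun l => orbq_cs hR h0 _)
    (fun i j y hi hj => by
      by_contra hne
      have k1 := orbq_tsup hR h0 _ _ hi
      have k2 := orbq_tsup hR h0 _ _ hj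
      have k3 := hX i j hne
      have k4 := nr_tri y (X i) (X j)
      linarith)
    (fun l => htr _)
  have hE1 := hE ψ hs ha
  unfold QM at hE1
  rw [hk, hpr, hon n X (fun _ => (1 : ℝ))] at hE1
  rw [← mul_add, ← mul_sub, mul_comm E] at hE1
  have hE2 := le_of_mul_le_mul_left hE1 hp
  -- kinetic energy
  have hkin : ∀ l, ∑ i, ∫ y, pd i (orbq q (X l)) y ^ 2 =
      ∑ i, ∫ y, pd i (fun y => q (nr y ^ 2)) y ^ 2 := by
    intro l
    refine Finset.sum_congr rfl fun i _ => ?_
    rw [← integral_sub_right_eq_self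
      (fun y => pd i (fun y : R3 => q (nr y ^ 2)) y ^ 2) (X l)]
    refine integral_congr_ae (Eventually.of_forall fun y => ?_)
    exact congrArg (fun z : ℝ => z ^ 2) (pd_tr i (fun y : R3 => q (nr y ^ 2)) (X l) y)
  -- attraction
  have hnw : ∀ a p : R3, R < nr (p - a) → ∫ y, orbq q a y ^ 2 / nr (y - p) = 1 / nr (p - a) := by
    intro a p hap
    have := h2 q R hq hR h0 a p hap
    have e : (∫ y, q (nr (y - a) ^ 2) ^ 2) = 1 := htr a
    rw [e] at this
    exact this
  set T : Fin n → Fin n → ℝ := fun i j => if i = j then 0 else 1 / nr (X i - X j) with hT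
  have hTs : ∀ i j, T i j = T j i := by
    intro i j
    simp only [hT]
    by_cases h : i = j
    · rw [if_pos h, if_pos h.symm]
    · rw [if_neg h, if_neg (Ne.symm h), nr_comm]
  have hsep : ∀ i j, i ≠ j → R < nr (X i - X j) := by
    intro i j hij
    have := hX i j hij
    linarith
  have hnuc : 2 * nucR X (fun _ => (1 : ℝ)) = ∑ i, ∑ j, T i j := by
    unfold nucR
    rw [← half_sum T hTs (fun i => by simp [hT])]
    congr 1
    refine Finset.sum_congr rfl fun i _ => Finset.sum_congr rfl fun j _ => ?_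
    by_cases h : i < j
    · rw [if_pos h, if_pos h]
      simp only [hT]
      rw [if_neg h.ne, one_mul]
    · rw [if_neg h, if_neg h]
  have hatt : ∀ l j, ∫ y, orbq q (X l) y ^ 2 / nr (y - X j) =
      T l j + if j = l then ∫ y, q (nr y ^ 2) ^ 2 / nr y else 0 := by
    intro l j
    by_cases h : j = l
    · subst h
      simp only [hT]
      rw [if_pos trivial, if_pos trivial, zero_add]
      exact integral_sub_right_eq_self (fun y : R3 => q (nr y ^ 2) ^ 2 / nr y) (X j)
    · rw [if_neg h, add_zero, hnw _ _ (hsep j l h)]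
      simp only [hT]
      rw [if_neg (Ne.symm h), nr_comm]
  have hone : ∑ l, ∑ j, (1 : ℝ) * ∫ y, orbq q (X l) y ^ 2 / nr (y - X j) =
      2 * nucR X (fun _ => (1 : ℝ)) + n * ∫ y, q (nr y ^ 2) ^ 2 / nr y := by
    rw [hnuc]
    have : ∀ l, ∑ j, (1 : ℝ) * ∫ y, orbq q (X l) y ^ 2 / nr (y - X j) =
        ∑ j, T l j + ∫ y, q (nr y ^ 2) ^ 2 / nr y := by
      intro l
      rw [Finset.sum_congr rfl fun j _ => by rw [one_mul, hatt l j], Finset.sum_add_distrib,
        Finset.sum_ite_eq' Finset.univ l, if_pos (Finset.mem_univ l)]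
    rw [Finset.sum_congr rfl fun l _ => this l, Finset.sum_add_distrib]
    simp
  -- repulsion
  have hrep : ∀ k l, k ≠ l → ∫ x, ∫ y, orbq q (X k) x ^ 2 * orbq q (X l) y ^ 2 / nr (x - y) =
      1 / nr (X k - X l) := by
    intro k l hkl
    have e1 : ∀ x, ∫ y, orbq q (X k) x ^ 2 * orbq q (X l) y ^ 2 / nr (x - y) =
        orbq q (X k) x ^ 2 / nr (x - X l) := by
      intro x
      by_cases hx : nr (x - X k) < R
      · have h5 : R < nr (x - X l) := by
          have k3 := hX k l hkl
          have k4 := nr_tri x (X k) (X l)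
          linarith
        have h6 := hnw (X l) x h5
        calc ∫ y, orbq q (X k) x ^ 2 * orbq q (X l) y ^ 2 / nr (x - y)
            = ∫ y, orbq q (X k) x ^ 2 * (orbq q (X l) y ^ 2 / nr (y - x)) := by
              refine integral_congr_ae (Eventually.of_forall fun y => ?_)
              simp only
              rw [nr_comm x y, mul_div_assoc]
          _ = orbq q (X k) x ^ 2 * (1 / nr (x - X l)) := by
              rw [integral_const_mul, h6]
          _ = _ := by ring
      · have h7 := orbq_zero hR h0 (X k) x (not_lt.1 hx)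
        simp [h7]
    rw [integral_congr_ae (Eventually.of_forall e1), hnw _ _ (hsep l k (Ne.symm hkl)), nr_comm]
  have hpair : (∑ k, ∑ l, if k < l then ∫ x, ∫ y, orbq q (X k) x ^ 2 * orbq q (X l) y ^ 2 /
      nr (x - y) else 0) = nucR X (fun _ => (1 : ℝ)) := by
    unfold nucR
    refine Finset.sum_congr rfl fun k _ => Finset.sum_congr rfl fun l _ => ?_
    by_cases h : k < l
    · rw [if_pos h, if_pos h, hrep k l h.ne, one_mul]
    · rw [if_neg h, if_neg h]
  rw [Finset.sum_congr rfl fun l _ => hkin l, hone, hpair] at hE2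
  rw [Finset.sum_const, Finset.card_univ, Fintype.card_fin, nsmul_eq_mul] at hE2
  have hn0 : (0 : ℝ) ≤ n := Nat.cast_nonneg _
  have := mul_le_mul_of_nonneg_left hen hn0
  linarith

end Pool.Agent.Helper4.HY
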